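import Pool.Agent.Lib.MP_10f401_gt.Neg.Final
import Pool.Agent.Lib.MP_10f401_gt.Rothberger

/-!
# Products with sets of size less than `mcf`

`mcf` is the minimal cofinality of an ultrapower of `ℕ`.  A family of less than `mcf` sets of reals
all of whose finite products are Menger has a union all of whose finite powers are Menger.  So
if `cov(M) < mcf` then for every `cov(M)`-Luzin set `X` and every `Y` all of whose finite powers
are Menger, the product of `X` and `Y` is Menger.
-/

set_option autoImplicit false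

namespace Pool.Agent.Results.MP_10f401_gt.BelowMcf

open Pool.Agent.Lib.MP_10f401_gt
open scoped Cardinal

theorem result :
    (∀ (I : Type) (A : I → Set (ℕ → Bool)), #I < mcf →
      (∀ k : ℕ, 1 ≤ k → ∀ i : Fin k → I,
        IsMenger (Set.pi Set.univ fun j => A (i j) : Set (Fin k → ℕ → Bool))) →
      ∀ k : ℕ, 1 ≤ k → IsMenger (Fin k → (⋃ i, A i : Set (ℕ → Bool)))) ∧
    (∀ X Y : Set (ℕ → Bool), #X < mcf → (∀ k : ℕ, 1 ≤ k → IsMenger (Fin k → Y)) →
      IsMenger (X × Y) ∧ ∀ k : ℕ, 1 ≤ k → IsMenger (Fin k → X × Y)) ∧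
    (covM < mcf → ∀ X : Set (ℕ → Bool), IsLuzin covM X → ∀ Y : Set (ℕ → Bool),
      ((∀ k : ℕ, 1 ≤ k → IsMenger (Fin k → Y)) ∨ (∀ k : ℕ, 1 ≤ k → IsRothberger (Fin k → Y))) →
      IsMenger (X × Y)) := by
  refine ⟨fun I A hI hA k _ => menger_pow_iUnion A hI hA k,
    fun X Y hX hY => ⟨menger_prod hX hY, fun k _ => menger_pow_prod hX hY k⟩, ?_⟩
  intro hlt X hX Y hY
  have hY' : ∀ k : ℕ, 1 ≤ k → IsMenger (Fin k → Y) := by
    rcases hY with hY | hY
    · exact hY
    · exact fun k hk => (hY k hk).isMenger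
  exact menger_prod (hX.card_le.trans_lt hlt) hY'

end Pool.Agent.Results.MP_10f401_gt.BelowMcf
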