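import Pool.Agent.Lib.MP_10f401_gt.NotMenger
import Pool.Agent.Lib.MP_10f401_gt.LZ.FinB

/-!
# Products of `cov(M)`-Luzin sets with Menger or Rothberger sets: the answer

Under the continuum hypothesis (more generally if `cov(M) = 𝔡` is regular), for every
`cov(M)`-Luzin set `X` there is a set of reals `Y` all of whose finite powers are Rothberger
(hence Menger) such that the product of `X` and `Y` is not Menger.

In `ZFC` this is not provable: there is a model of `ZFC` with a `cov(M)`-Luzin set `X` such that
`X × Y` is Menger for every set of reals `Y` for which `Y × Y` is Menger (or Rothberger).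
-/

set_option autoImplicit false

namespace Pool.Agent.Results.MP_10f401_gt.FullAnswer

open Pool.Agent.Lib.MP_10f401_gt
open scoped Cardinal

/-- (i) If the continuum hypothesis holds (or if `𝔡 ≤ cov(M)` and `cov(M)` is regular), then for
every `cov(M)`-Luzin set `X` there is a set of reals `Y`, all of whose finite powers are Rothberger
and Menger, such that `X × Y` is not Menger.
(ii) There is a model `(M, E)` of `ZFC` in which there is a `cov(M)`-Luzin set `X` such that `X × Y`
is Menger for every set of reals `Y` for which `Y × Y` is Menger or Rothberger. -/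
theorem result :
    (((𝔠 : Cardinal.{0}) = ℵ₁ ∨ (dNum ≤ covM ∧ covM.IsRegular)) →
      ∀ X : Set (ℕ → Bool), IsLuzin covM X → ∃ Y : Set (ℕ → Bool),
        (∀ k : ℕ, 1 ≤ k → IsRothberger (Fin k → Y) ∧ IsMenger (Fin k → Y)) ∧
          ¬ IsMenger (X × Y)) ∧
    ∃ (M : Type) (E : M → M → Prop), Pool.Agent.Lib.MP_1ab623_gt.IsZFC E ∧
      ∃ w X : M, Pool.Agent.Lib.MP_1ab623_gt.IsOmega E w ∧ Mdl.IsCovLuzin E w X ∧
        ∀ Y : M, (∀ y, E y Y → Pool.Agent.Lib.MP_1ab623_gt.Sub E y w) →
          (Mdl.MengerProduct E w Y Y ∨ Mdl.RothbergerProduct E w Y Y) →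
            Mdl.MengerProduct E w X Y := by
  refine ⟨fun h X hX => ?_, Pool.Agent.LZ.goal⟩
  have h' : dNum ≤ covM ∧ covM.IsRegular := h.elim of_CH id
  obtain ⟨Y, hY, hXY⟩ := main_general h'.1 h'.2 hX
  exact ⟨Y, fun k _ => ⟨hY k, (hY k).isMenger⟩, hXY⟩

end Pool.Agent.Results.MP_10f401_gt.FullAnswer
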